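import Mathlib

namespace Pool.Agent.Results.MP_c292ad_nt.Yes

open Nat Finset Polynomial

/-- `R_n` of the problem -/
def R (n : ℕ) : ℚ :=
  ∑ k ∈ range (n + 1), ((n + k).choose (2 * k) : ℚ) * ((2 * k).choose k : ℚ) * (1 / (2 * k - 1))

/-- `W_n` of the problem -/
def W (n : ℕ) : ℚ :=
  ∑ k ∈ range (n + 1), ((n + k).choose (2 * k) : ℚ) * ((2 * k).choose k : ℚ) * (3 / (2 * k - 3))

def T (f : ℕ → ℤ) (n : ℕ) : ℤ := ∑ k ∈ range (n + 1), ((n + k).choose (2 * k) : ℤ) * f k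

def sh (f : ℕ → ℤ) : ℕ → ℤ
  | 0 => 0
  | k + 1 => f k

lemma T_ext (f : ℕ → ℤ) (n L : ℕ) (h : n < L) :
    ∑ k ∈ range L, ((n + k).choose (2 * k) : ℤ) * f k = T f n := by
  refine (sum_subset (range_subset_range.2 h) fun m _ hm => ?_).symm
  rw [Nat.choose_eq_zero_of_lt (by simp at hm; omega)]
  simp

lemma T_rel (f g : ℕ → ℤ) (c : ℤ) (h : ∀ k, (2 * k - c) * g k = f k) (n : ℕ) :
    (2 * (n + 1) - c) * T g (n + 1) = (2 * (n + 1) + c) * T g n + T f (n + 1) + T f n := by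
  rw [← T_ext g n (n + 2) (by omega), ← T_ext f n (n + 2) (by omega), T, T, mul_sum, mul_sum,
    ← sum_add_distrib, ← sum_add_distrib]
  refine sum_congr rfl fun k hk => ?_
  have h1 := congrArg (Nat.cast : ℕ → ℤ) (Nat.choose_mul_succ_eq (n + k) (2 * k))
  rw [Nat.cast_mul, Nat.cast_mul, Nat.cast_sub (by have := mem_range.1 hk; omega)] at h1
  rw [← h k, show n + 1 + k = n + k + 1 by ring]
  push_cast at h1 ⊢
  linear_combination (-2 * g k) * h1

lemma T_sh (f : ℕ → ℤ) (n : ℕ) :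
    T (sh f) (n + 2) - 2 * T (sh f) (n + 1) + T (sh f) n = T f (n + 1) := by
  rw [← T_ext _ n (n + 3) (by omega), ← T_ext _ (n + 1) (n + 3) (by omega), T, T, mul_sum,
    ← sum_sub_distrib, ← sum_add_distrib, sum_range_succ']
  simp only [sh, mul_zero, add_zero, sub_zero]
  refine sum_congr rfl fun k _ => ?_
  rw [show n + 2 + (k + 1) = n + 1 + k + 1 + 1 by ring, show n + 1 + (k + 1) = n + 1 + k + 1 by ring,
    show n + (k + 1) = n + 1 + k by ring, show 2 * (k + 1) = 2 * k + 1 + 1 by ring]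
  simp only [Nat.choose_succ_succ, Nat.succ_eq_add_one]
  push_cast
  ring

def a (k : ℕ) : ℤ := centralBinom k
def b (k : ℕ) : ℤ := 4 * sh a k - a k
def w (k : ℕ) : ℤ := b k + 8 * sh b k

lemma a_succ (k : ℕ) : (k + 1) * a (k + 1) = 2 * (2 * k + 1) * a k := by
  unfold a; exact_mod_cast Nat.succ_mul_centralBinom_succ k

lemma b_eq (k : ℕ) : (2 * k - 1) * b k = a k := by
  cases k with
  | zero => simp [a, b, sh]
  | succ k =>
    simp only [b, sh]
    push_cast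
    linear_combination (-2) * a_succ k

lemma w_eq (k : ℕ) : (2 * k - 3) * w k = 3 * a k := by
  cases k with
  | zero => simp [a, b, sh, w]
  | succ k =>
    have h := b_eq k
    have h2 := b_eq (k + 1)
    have h3 : b (k + 1) = 4 * a k - a (k + 1) := rfl
    simp only [w, sh]
    push_cast at h2 ⊢
    linear_combination 8 * h + 3 * h2 - (4 * k + 4) * h3 + 4 * a_succ k

def r := T b
def d := T a
def v := T w

lemma R_eq (n : ℕ) : R n = r n := by
  unfold R r T
  push_cast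
  refine sum_congr rfl fun k _ => ?_
  have h := congrArg (Int.cast : ℤ → ℚ) (b_eq k)
  have h0 : ((2 * k - 1 : ℤ) : ℚ) ≠ 0 := Int.cast_ne_zero.2 (by omega)
  simp only [a, centralBinom] at h
  push_cast at h h0
  rw [← h]
  field_simp

lemma W_eq (n : ℕ) : W n = v n := by
  unfold W v T
  push_cast
  refine sum_congr rfl fun k _ => ?_
  have h := congrArg (Int.cast : ℤ → ℚ) (w_eq k)
  have h0 : ((2 * k - 3 : ℤ) : ℚ) ≠ 0 := Int.cast_ne_zero.2 (by omega)
  simp only [a, centralBinom] at h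
  push_cast at h h0
  field_simp
  linear_combination (-((n + k).choose (2 * k) : ℚ)) * h

lemma r1 (n : ℕ) : (2 * n + 1) * r (n + 1) = (2 * n + 3) * r n + d (n + 1) + d n := by
  have := T_rel a b 1 b_eq n
  unfold r d
  linear_combination this

lemma v1 (n : ℕ) : (2 * n - 1) * v (n + 1) = (2 * n + 5) * v n + 3 * d (n + 1) + 3 * d n := by
  have := T_rel (fun k => 3 * a k) w 3 w_eq n
  have e : ∀ m, T (fun k => 3 * a k) m = 3 * d m := fun m => by
    unfold d T; rw [mul_sum]; exact sum_congr rfl fun k _ => by ring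
  rw [e, e] at this
  unfold v
  linear_combination this

lemma r2 (n : ℕ) : (n + 2) * r (n + 2) = 3 * r (n + 1) + (n + 1) * r n + 4 * d (n + 1) := by
  have e : ∀ m, 4 * T (sh a) m = r m + d m := fun m => by
    unfold r d T b; rw [mul_sum, ← sum_add_distrib]; exact sum_congr rfl fun k _ => by ring
  have h := T_sh a n
  have h1 := r1 n
  have h2 := r1 (n + 1)
  have h3 : 2 * ((n + 2) * r (n + 2)) = 2 * (3 * r (n + 1) + (n + 1) * r n + 4 * d (n + 1)) := by
    push_cast at h2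
    change _ = d (n + 1) at h
    linear_combination h1 + h2 + 4 * h - e (n + 2) + 2 * e (n + 1) - e n
  omega

section
variable {A : Type*} [CommRing A]

def G1 (n x y z t : A) : A := 4 * (x * t - y * z) - n * (x ^ 2 - 6 * x * y + y ^ 2)

def G2 (n x y z : A) : A :=
  x ^ 2 * (-108 + 45 * n + 288 * n ^ 2 - 144 * n ^ 4 + 72 * n ^ 5)
  + x * y * (-108 - 54 * n - 240 * n ^ 2 - 96 * n ^ 3 + 96 * n ^ 4 - 48 * n ^ 5)
  + y ^ 2 * (-27 * n + 48 * n ^ 2 + 32 * n ^ 3 - 16 * n ^ 4 + 8 * n ^ 5)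
  + x * z * (-108 - 144 * n + 48 * n ^ 2 + 96 * n ^ 3 - 96 * n ^ 4)
  + y * z * (-108 + 144 * n + 48 * n ^ 2 - 32 * n ^ 3 + 32 * n ^ 4) + 32 * n ^ 3 * z ^ 2
end

lemma vals : r 0 = -1 ∧ r 1 = 1 ∧ d 0 = 1 ∧ d 1 = 3 ∧ v 0 = -1 ∧ v 1 = -7 := by
  decide +kernel

lemma key (n : ℕ) : ∃ X : ℚ, (r (n + 2) : ℚ) = X / (n + 2) ∧
    X = 3 * r (n + 1) + (n + 1) * r n + 4 * d (n + 1) ∧
    (d (n + 2) : ℚ) = (2 * n + 3) * r (n + 2) - (2 * n + 5) * r (n + 1) - d (n + 1) ∧
    (d n : ℚ) = (2 * n + 1) * r (n + 1) - (2 * n + 3) * r n - d (n + 1) := by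
  have h1 := congrArg (Int.cast : ℤ → ℚ) (r1 n)
  have h2 := congrArg (Int.cast : ℤ → ℚ) (r1 (n + 1))
  have h3 := congrArg (Int.cast : ℤ → ℚ) (r2 n)
  push_cast at h1 h2 h3
  refine ⟨_, ?_, rfl, by linear_combination -h2, by linear_combination -h1⟩
  rw [← h3]
  field_simp

lemma v_eq (n : ℕ) : 3 * v (n + 1) = -((3 - 3 * (n + 1) - 6 * (n + 1) ^ 2) * r (n + 1) +
    ((n + 1) + 2 * (n + 1) ^ 2) * r n + (6 + 4 * (n + 1)) * d (n + 1)) := by
  induction n with
  | zero => decide +kernel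
  | succ n ih =>
    have h := v1 (n + 1)
    have h2 := r1 (n + 1)
    have h3 := r2 n
    have h0 : (2 * (n : ℤ) + 1) ≠ 0 := by omega
    apply mul_left_cancel₀ h0
    push_cast at h h2 ⊢
    linear_combination 3 * h + (2 * n + 7) * ih - (9 + (2 * n + 1) * (4 * n + 14)) * h2
      + (2 * n + 3) * (2 * n + 7) * h3

lemma S1 (n : ℕ) : 8 * ∑ k ∈ range (n + 1), (2 * k + 1) * r k ^ 2 =
    (n + 1) * G1 ((n : ℤ) + 1) (r (n + 1)) (r n) (d (n + 1)) (d n) := by
  induction n with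
  | zero => decide +kernel
  | succ n ih =>
    rw [sum_range_succ, mul_add, ih]
    apply Int.cast_injective (α := ℚ)
    obtain ⟨X, h1, h2, h3, h4⟩ := key n
    unfold G1
    push_cast
    rw [show n + 1 + 1 = n + 2 from rfl, h3, h4, h1, h2]
    field_simp
    ring

lemma S2 (n : ℕ) : 72 * ∑ k ∈ range (n + 1), (2 * k + 1) * v k ^ 2 =
    (n + 1) * G2 ((n : ℤ) + 1) (r (n + 1)) (r n) (d (n + 1)) := by
  induction n with
  | zero => decide +kernel
  | succ n ih =>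
    rw [sum_range_succ, mul_add, ih,
      show ∀ s t : ℤ, 72 * (s * t ^ 2) = 8 * s * (3 * t) ^ 2 from fun s t => by ring, v_eq]
    apply Int.cast_injective (α := ℚ)
    obtain ⟨X, h1, h2, h3, h4⟩ := key n
    unfold G2
    push_cast
    rw [show n + 1 + 1 = n + 2 from rfl, h3, h1, h2]
    field_simp
    ring

lemma d_eq (n : ℕ) : d n = ∑ j ∈ range (n + 1), (n.choose j : ℤ) ^ 2 * 2 ^ j := by
  have h : ((1 + X) ^ n * (X + C 2) ^ n : ℤ[X]) =
      ∑ k ∈ range (n + 1), (1 + X) ^ (n + k) * C (n.choose k : ℤ) := by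
    rw [show (X + C 2 : ℤ[X]) = (1 + X) + 1 by simp; ring, add_pow (1 + X) 1, mul_sum]
    exact sum_congr rfl fun k _ => by simp; ring
  have h2 := congrArg (fun p => coeff p n) h
  simp only [finsetSum_coeff, coeff_mul_C, coeff_one_add_X_pow] at h2
  rw [coeff_mul, Finset.Nat.sum_antidiagonal_eq_sum_range_succ_mk] at h2
  simp only [coeff_one_add_X_pow, coeff_X_add_C_pow] at h2
  refine Eq.trans ?_ (h2.symm.trans ?_)
  · unfold d T
    refine sum_congr rfl fun k hk => ?_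
    have := Nat.choose_mul (n := n + k) (k := 2 * k) (s := k) (by omega)
    rw [show n + k - k = n by omega, show 2 * k - k = k by omega] at this
    rw [Nat.choose_symm_add, ← Nat.cast_mul, ← this]
    simp [a, centralBinom]
  · refine sum_congr rfl fun k hk => ?_
    have hk := mem_range.1 hk
    rw [Nat.choose_symm (by omega), show n - (n - k) = k by omega]
    ring

abbrev Z := ZMod 128

structure St where
  c1 : Z
  c2 : Z
  c3 : Z
  c4 : Z
  c5 : Z
  c6 : Z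
  x : Z
deriving DecidableEq

def St.dd (c1 c2 c3 c4 c5 c6 : Z) : Z :=
  1 + c1 ^ 2 * 2 + c2 ^ 2 * 4 + c3 ^ 2 * 8 + c4 ^ 2 * 16 + c5 ^ 2 * 32 + c6 ^ 2 * 64

def St.D (s : St) : Z := St.dd s.c1 s.c2 s.c3 s.c4 s.c5 s.c6

def St.D' (s : St) : Z :=
  St.dd (s.c1 + 1) (s.c1 + s.c2) (s.c2 + s.c3) (s.c3 + s.c4) (s.c4 + s.c5) (s.c5 + s.c6)

def nx (s : St) : St := ⟨s.c1 + 1, s.c1 + s.c2, s.c2 + s.c3, s.c3 + s.c4, s.c4 + s.c5, s.c5 + s.c6,
  (2 * s.c1 + 1) ^ 31 * ((2 * s.c1 + 3) * s.x + s.D' + s.D)⟩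

def P (s : St) : Bool :=
  G1 (s.c1 + 1) (nx s).x s.x s.D' s.D = 8 * (s.c1 + 1) ∧
  2 * G2 (s.c1 + 1) (nx s).x s.x s.D' = 144 * (s.c1 + 1)

def s0 : St := ⟨0, 0, 0, 0, 0, 0, -1⟩

def chk : ℕ → St → Bool
  | 0, s => s = s0
  | k + 1, s => P s && chk k (nx s)

lemma chk_ok : chk 512 s0 = true := by decide +kernel

lemma chk_sound (k : ℕ) (s : St) (h : chk k s = true) :
    nx^[k] s = s0 ∧ ∀ i < k, P (nx^[i] s) = true := by
  induction k generalizing s with
  | zero => simpa [chk] using h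
  | succ k ih =>
    rw [chk, Bool.and_eq_true] at h
    refine ⟨(ih _ h.2).1, fun i hi => ?_⟩
    cases i with
    | zero => exact h.1
    | succ i => exact (ih _ h.2).2 i (by omega)

lemma P_all (n : ℕ) : P (nx^[n] s0) = true := by
  obtain ⟨h1, h2⟩ := chk_sound _ _ chk_ok
  rw [← Function.IsPeriodicPt.iterate_mod_apply h1]
  exact h2 _ (Nat.mod_lt _ (by norm_num))

lemma d_mod (n : ℕ) : (d n : Z) =
    St.dd n (n.choose 2) (n.choose 3) (n.choose 4) (n.choose 5) (n.choose 6) := by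
  rw [d_eq, sum_subset (range_subset_range.2 (show n + 1 ≤ 7 + n by omega)) (fun m _ hm => by
    rw [Nat.choose_eq_zero_of_lt (by simp at hm; omega)]; simp), sum_range_add]
  push_cast
  rw [sum_eq_zero (s := range n) fun j _ => by
    rw [pow_add, show (2 : Z) ^ 7 = 0 by decide]; simp]
  simp only [sum_range_succ, St.dd]
  simp
  ring

lemma st (n : ℕ) : nx^[n] s0 =
    ⟨n, n.choose 2, n.choose 3, n.choose 4, n.choose 5, n.choose 6, r n⟩ := by
  induction n with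
  | zero => simp [s0, vals.1]
  | succ n ih =>
    rw [Function.iterate_succ_apply', ih]
    have h := congrArg (Int.cast : ℤ → Z) (r1 n)
    have u : ∀ x : Z, (2 * x + 1) ^ 31 * (2 * x + 1) = 1 := by decide +kernel
    push_cast at h
    rw [d_mod, d_mod] at h
    simp only [Nat.choose_succ_succ, Nat.succ_eq_add_one] at h ⊢
    simp only [nx, St.D, St.D']
    simp at h ⊢
    rw [← h, ← mul_assoc, u, one_mul]

lemma cong (n : ℕ) :
    (128 : ℤ) ∣ G1 ((n : ℤ) + 1) (r (n + 1)) (r n) (d (n + 1)) (d n) - 8 * (n + 1) ∧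
    (128 : ℤ) ∣ 2 * G2 ((n : ℤ) + 1) (r (n + 1)) (r n) (d (n + 1)) - 144 * (n + 1) := by
  have h := P_all n
  have h1 : (nx (nx^[n] s0)).x = r (n + 1) := by rw [← Function.iterate_succ_apply' nx, st]
  have h2 : (nx^[n] s0).D = d n := by rw [st, d_mod]; rfl
  have h3 : (nx^[n] s0).D' = d (n + 1) := by
    rw [st, d_mod]
    simp only [Nat.choose_succ_succ, Nat.succ_eq_add_one]
    simp [St.D']
  rw [P, decide_eq_true_iff, h1, h2, h3, st] at h
  constructor <;> apply (ZMod.intCast_zmod_eq_zero_iff_dvd _ 128).1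
  · rw [← sub_eq_zero.2 h.1]; simp [G1]
  · rw [← sub_eq_zero.2 h.2]; simp [G2]

theorem result :
    (∀ n : ℕ, 0 < n → ∃ m : ℤ,
      ∑ k ∈ range n, (2 * (k : ℚ) + 1) * R k ^ 2 - (n : ℚ) ^ 2 = 16 * n * m) ∧
    (∀ n : ℕ, 0 < n → ∃ m : ℤ,
      ∑ k ∈ range n, (2 * (k : ℚ) + 1) * W k ^ 2 - (n : ℚ) ^ 2 = 8 * n * m) := by
  constructor <;> intro n hn <;> obtain ⟨n, rfl⟩ : ∃ N, n = N + 1 := ⟨n - 1, by omega⟩
  · obtain ⟨m, hm⟩ := (cong n).1
    refine ⟨m, ?_⟩
    have h := congrArg (Int.cast : ℤ → ℚ) (S1 n)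
    rw [eq_add_of_sub_eq hm] at h
    simp only [R_eq]
    push_cast at h ⊢
    linear_combination h / 8
  · obtain ⟨m, hm⟩ := (cong n).2
    have h := S2 n
    set S := ∑ k ∈ range (n + 1), (2 * k + 1) * v k ^ 2 with hS
    have h9 : (9 : ℤ) ∣ m := by
      by_cases h3 : (3 : ℤ) ∣ n + 1
      · obtain ⟨j, hj⟩ := h3
        rw [hj] at hm
        have : (9 : ℤ) ∣ G2 (3 * j) (r (n + 1)) (r n) (d (n + 1)) := by
          apply (ZMod.intCast_zmod_eq_zero_iff_dvd _ 9).1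
          have : ∀ j x y z : ZMod 9, G2 (3 * j) x y z = 0 := by decide +kernel
          rw [← this j (r (n + 1)) (r n) (d (n + 1))]
          simp [G2]
        omega
      · have h4 : IsCoprime (9 : ℤ) (8 * (n + 1)) := by
          rw [show (9 : ℤ) = 3 ^ 2 by norm_num]
          exact ((Int.prime_three.coprime_iff_not_dvd).2 (by omega)).pow_left
        exact h4.dvd_of_dvd_mul_left ⟨S - (n + 1) ^ 2, by
          have : 16 * (8 * (n + 1) * m) = 16 * (9 * (S - (n + 1) ^ 2)) := by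
            linear_combination (-2) * h - (n + 1) * hm
          omega⟩
    obtain ⟨m, rfl⟩ := h9
    refine ⟨m, ?_⟩
    have h5 : 144 * (S - (n + 1) ^ 2) = 144 * (8 * (n + 1) * m) := by
      linear_combination 2 * h + (n + 1) * hm
    have h6 := congrArg (Int.cast : ℤ → ℚ) (mul_left_cancel₀ (by norm_num) h5)
    rw [hS] at h6
    simp only [W_eq]
    push_cast at h6 ⊢
    exact h6

end Pool.Agent.Results.MP_c292ad_nt.Yes
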